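import Pool.Agent.NDR.StmtsC

/-!
# Squad NDR, row CLC (helper86): sums of exponents of `W` and `V` are good
-/

set_option autoImplicit false

namespace Pool.Agent.NDR.H86

open Finset Pool.Agent.NDR Pool.Agent.Helper6_Mono Pool.Agent.Helper30_Simp

variable {σ : Type}

/-- the weights on `Mp`: `w i` at `L e_i`, `r α` at `α ∈ M`, `θ` at `α₀` -/
theorem sum_weights (M : Finset (σ →₀ ℕ)) (I : Finset σ) (L : ℕ) (w : σ → ℝ)
    (r : (σ →₀ ℕ) → ℝ) (θ : ℝ) (α₀ : σ →₀ ℕ) (hα₀ : α₀ ∈ M) :
    ∃ l : (σ →₀ ℕ) → ℝ, ((∀ i ∈ I, 0 ≤ w i) → (∀ α, 0 ≤ r α) → 0 ≤ θ → ∀ β, 0 ≤ l β) ∧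
      ∀ φ : (σ →₀ ℕ) → ℝ, ∑ β ∈ Mp M I L, l β * φ β =
        ∑ i ∈ I, w i * φ (Finsupp.single i L) + ∑ α ∈ M, r α * φ α + θ * φ α₀ := by
  classical
  refine ⟨fun β => (∑ i ∈ I, if β = Finsupp.single i L then w i else 0) +
    (if β ∈ M then r β else 0) + (if β = α₀ then θ else 0), ?_, ?_⟩
  · intro hw hr hθ β
    have h1 : 0 ≤ ∑ i ∈ I, if β = Finsupp.single i L then w i else 0 := by
      apply Finset.sum_nonneg
      intro i hi
      split_ifs
      · exact hw i hi
      · exact le_refl _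
    have h2 : 0 ≤ (if β ∈ M then r β else 0) := by
      split_ifs
      · exact hr β
      · exact le_refl _
    have h3 : 0 ≤ (if β = α₀ then θ else 0) := by
      split_ifs
      · exact hθ
      · exact le_refl _
    exact add_nonneg (add_nonneg h1 h2) h3
  · intro φ
    have hM : ∀ α ∈ M, α ∈ Mp M I L := fun α hα => by
      unfold Mp
      exact Finset.mem_union_left _ hα
    have hI : ∀ i ∈ I, Finsupp.single i L ∈ Mp M I L := fun i hi => by
      unfold Mp
      exact Finset.mem_union_right _ (Finset.mem_image_of_mem _ hi)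
    simp only [add_mul, Finset.sum_add_distrib]
    congr 1
    · congr 1
      · simp only [Finset.sum_mul]
        rw [Finset.sum_comm]
        refine Finset.sum_congr rfl fun i hi => ?_
        rw [Finset.sum_eq_single (Finsupp.single i L)]
        · rw [if_pos rfl]
        · intro β _ hβ
          rw [if_neg hβ, zero_mul]
        · intro h
          exact absurd (hI i hi) h
      · rw [← Finset.sum_subset (fun α hα => hM α hα) (f := fun β => (if β ∈ M then r β else 0) * φ β)]
        · refine Finset.sum_congr rfl fun α hα => ?_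
          show (if α ∈ M then r α else 0) * φ α = r α * φ α
          rw [if_pos hα]
        · intro β _ hβ
          rw [if_neg hβ, zero_mul]
    · rw [Finset.sum_eq_single α₀]
      · rw [if_pos rfl]
      · intro β _ hβ
        rw [if_neg hβ, zero_mul]
      · intro h
        exact absurd (hM α₀ hα₀) h

/-- **Row CLC.** -/
theorem clc : ClcStmt := by
  classical
  intro σ _ M I L t d D' htL hDL hM n₁ hn₁ n₂ hn₂
  obtain ⟨⟨k, hk1, hk2⟩, hU⟩ := hn₁
  obtain ⟨α₀, hα₀, r, hr1, hr2⟩ := hn₂
  have hU' : ∑ i ∈ I, n₁ (some i) ≤ d + L * n₁ none := hU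
  have hL0 : 0 < L := lt_of_le_of_lt (Nat.zero_le _) htL
  have hLr : (0 : ℝ) < L := by exact_mod_cast hL0
  refine ⟨?_, ?_, ?_, ?_⟩
  · intro v
    exact Int.natCast_nonneg _
  · -- np
    set de : σ → ℕ := fun i => L * k i - n₁ (some i) with hde
    have hdek : ∀ i, de i ≤ L * k i := fun i => Nat.sub_le _ _
    set w : σ → ℝ := fun i => (k i : ℝ) - (de i : ℝ) / L with hw
    have hw0 : ∀ i, 0 ≤ w i := by
      intro i
      have h1 : (de i : ℝ) ≤ L * k i := by exact_mod_cast hdek i
      have h2 : (de i : ℝ) / L ≤ k i := by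
        rw [div_le_iff₀ hLr]
        linarith
      exact sub_nonneg.2 h2
    have hwn : ∀ i, w i * L ≤ n₁ (some i) := by
      intro i
      have h1 : w i * L = (L * k i : ℕ) - (de i : ℝ) := by
        rw [hw]
        push_cast
        field_simp
      have h2 : L * k i ≤ n₁ (some i) + de i := by
        simp only [hde]
        omega
      have h3 : ((L * k i : ℕ) : ℝ) ≤ n₁ (some i) + de i := by exact_mod_cast h2
      rw [h1]
      linarith
    set θ : ℝ := ∑ i ∈ I, (de i : ℝ) / L with hθ
    have hθ0 : 0 ≤ θ := Finset.sum_nonneg fun i _ => by positivity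
    have hθ1 : θ ≤ 1 := by
      have h1 : θ = ((∑ i ∈ I, de i : ℕ) : ℝ) / L := by
        rw [hθ, ← Finset.sum_div]
        push_cast
        rfl
      rw [h1, div_le_one hLr]
      have h2 : ∑ i ∈ I, de i ≤ L := hk2.trans htL.le
      exact_mod_cast h2
    obtain ⟨l, hl0, hl⟩ := sum_weights M I L w (fun α => (r α : ℝ)) θ α₀ hα₀
    refine ⟨l, hl0 (fun i _ => hw0 i) (fun α => Nat.cast_nonneg _) hθ0, ?_, ?_⟩
    · intro j hj
      rw [hl (fun α => ((α j : ℕ) : ℝ))]
      have h1 : ∑ i ∈ I, w i * (((Finsupp.single i L) j : ℕ) : ℝ) = w j * L := by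
        rw [Finset.sum_eq_single j]
        · rw [Finsupp.single_eq_same]
        · intro i _ hij
          rw [Finsupp.single_eq_of_ne (Ne.symm hij), Nat.cast_zero, mul_zero]
        · intro h
          exact absurd hj h
      rw [h1]
      have h2 : ((((n₁ + n₂) (some j) : ℕ) : ℤ) : ℝ) = (n₁ (some j) : ℝ) + ((α₀ j : ℕ) : ℝ) +
          ∑ α ∈ M, (r α : ℝ) * ((α j : ℕ) : ℝ) := by
        rw [Finsupp.add_apply, hr1 j hj]
        push_cast
        ring
      have h3 : θ * ((α₀ j : ℕ) : ℝ) ≤ ((α₀ j : ℕ) : ℝ) := by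
        have := mul_le_mul_of_nonneg_right hθ1 (Nat.cast_nonneg (α := ℝ) (α₀ j))
        linarith
      have h4 := hwn j
      show w j * L + ∑ α ∈ M, (r α : ℝ) * ((α j : ℕ) : ℝ) + θ * ((α₀ j : ℕ) : ℝ) ≤
        ((((n₁ + n₂) (some j) : ℕ) : ℤ) : ℝ)
      rw [h2]
      linarith
    · have h1 := hl (fun _ => 1)
      simp only [mul_one] at h1
      rw [h1]
      have h2 : ∑ i ∈ I, w i = ((∑ i ∈ I, k i : ℕ) : ℝ) - θ := by
        rw [hw, hθ, Finset.sum_sub_distrib]
        push_cast
        rfl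
      rw [h2, hk1]
      have h3 : ((((n₁ + n₂) none : ℕ) : ℤ) : ℝ) = (n₁ none : ℝ) + ∑ α ∈ M, (r α : ℝ) := by
        rw [Finsupp.add_apply, hr2]
        push_cast
        ring
      rw [h3]
      ring
  · -- kap
    intro κ N hN hκ hdot hNL
    have hdI : ∀ α : σ →₀ ℕ, dot κ α = ∑ i ∈ I, κ i * α i := by
      intro α
      unfold dot
      symm
      apply Finset.sum_subset (Finset.subset_univ I)
      intro i _ hi
      have h0 : κ i = 0 := by
        by_contra h
        exact hi ((hκ i).1 h)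
      rw [h0, zero_mul]
    have h2 : N + N * n₂ none ≤ ∑ i ∈ I, κ i * n₂ (some i) := by
      have e1 : ∑ i ∈ I, κ i * n₂ (some i) = dot κ α₀ + ∑ α ∈ M, r α * dot κ α := by
        have e2 : ∀ i ∈ I, κ i * n₂ (some i) = κ i * α₀ i + ∑ α ∈ M, r α * (κ i * α i) := by
          intro i hi
          rw [hr1 i hi, mul_add, Finset.mul_sum]
          congr 1
          exact Finset.sum_congr rfl fun α _ => by ring
        rw [Finset.sum_congr rfl e2, Finset.sum_add_distrib, hdI, Finset.sum_comm]
        congr 1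
        refine Finset.sum_congr rfl fun α _ => ?_
        rw [hdI, Finset.mul_sum]
      rw [e1, hr2, Finset.mul_sum]
      apply Nat.add_le_add (hdot α₀ hα₀)
      apply Finset.sum_le_sum
      intro α hα
      rw [mul_comm N (r α)]
      exact Nat.mul_le_mul_left _ (hdot α hα)
    have h1 : L * (N * n₁ none) < L * (∑ i ∈ I, κ i * n₁ (some i)) + L * N := by
      have e1 : ∀ i ∈ I, L * (N * k i) ≤ L * (κ i * n₁ (some i)) +
          N * (L * k i - n₁ (some i)) := by
        intro i hi
        have h3 := hNL i hi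
        rcases Nat.le_total (L * k i) (n₁ (some i)) with h | h
        · calc L * (N * k i) = N * (L * k i) := by ring
            _ ≤ (L * κ i) * n₁ (some i) := Nat.mul_le_mul h3.le h
            _ = L * (κ i * n₁ (some i)) := by ring
            _ ≤ _ := Nat.le_add_right _ _
        · calc L * (N * k i) = N * (n₁ (some i) + (L * k i - n₁ (some i))) := by
                rw [Nat.add_sub_cancel' h]
                ring
            _ = N * n₁ (some i) + N * (L * k i - n₁ (some i)) := by ring
            _ ≤ (L * κ i) * n₁ (some i) + N * (L * k i - n₁ (some i)) :=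
                Nat.add_le_add_right (Nat.mul_le_mul_right _ h3.le) _
            _ = _ := by ring
      have e2 := Finset.sum_le_sum e1
      rw [← Finset.mul_sum, ← Finset.mul_sum, Finset.sum_add_distrib, ← Finset.mul_sum,
        ← Finset.mul_sum, hk1] at e2
      calc L * (N * n₁ none) ≤ L * (∑ i ∈ I, κ i * n₁ (some i)) +
            N * ∑ i ∈ I, (L * k i - n₁ (some i)) := e2
        _ ≤ L * (∑ i ∈ I, κ i * n₁ (some i)) + N * t :=
            Nat.add_le_add_left (Nat.mul_le_mul_left _ hk2) _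
        _ < L * (∑ i ∈ I, κ i * n₁ (some i)) + L * N := by
            rw [mul_comm L N]
            exact Nat.add_lt_add_left (Nat.mul_lt_mul_of_pos_left htL hN) _
    have h3 : N * n₁ none < ∑ i ∈ I, κ i * n₁ (some i) + N := by
      rw [← mul_add] at h1
      exact Nat.lt_of_mul_lt_mul_left h1
    have h4 : N * (n₁ + n₂) none < ∑ i ∈ I, κ i * (n₁ + n₂) (some i) := by
      simp only [Finsupp.add_apply, mul_add, Finset.sum_add_distrib]
      omega
    show (N : ℤ) * (((n₁ + n₂) none : ℕ) : ℤ) <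
      ∑ i ∈ I, (κ i : ℤ) * (((n₁ + n₂) (some i) : ℕ) : ℤ)
    exact_mod_cast h4
  · -- inf
    have h1 : ∑ i ∈ I, n₂ (some i) ≤ D' + L * n₂ none := by
      have e1 : ∑ i ∈ I, n₂ (some i) = ∑ i ∈ I, α₀ i + ∑ α ∈ M, r α * ∑ i ∈ I, α i := by
        rw [Finset.sum_congr rfl hr1, Finset.sum_add_distrib, Finset.sum_comm]
        congr 1
        exact Finset.sum_congr rfl fun α _ => (Finset.mul_sum _ _ _).symm
      rw [e1, hr2, Finset.mul_sum]
      apply Nat.add_le_add (hM α₀ hα₀)
      apply Finset.sum_le_sum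
      intro α hα
      rw [mul_comm L (r α)]
      exact Nat.mul_le_mul_left _ ((hM α hα).trans hDL)
    have h2 : ∑ i ∈ I, (n₁ + n₂) (some i) ≤ (d + D') + L * (n₁ + n₂) none := by
      simp only [Finsupp.add_apply, mul_add, Finset.sum_add_distrib]
      omega
    show ∑ i ∈ I, (((n₁ + n₂) (some i) : ℕ) : ℤ) ≤ ((d + D' : ℕ) : ℤ) +
      (L : ℤ) * (((n₁ + n₂) none : ℕ) : ℤ)
    exact_mod_cast h2

end Pool.Agent.NDR.H86
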